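import Pool.Agent.helper41.Sch.Defs

/-!
Schneider project, module AL1: for almost every `p` the function `h - ⟨p, ·⟩` has at most one
minimizer.
-/

open scoped Pointwise ContDiff
open MeasureTheory Set Filter Topology

namespace Pool.Agent.helper41.Sch

/-- The effective domain of the convex conjugate. -/
def AL1_dom (h : P → ℝ) : Set P := {p | BddAbove (range fun y => dot p y - h y)}

theorem AL1_le {h : P → ℝ} {p : P} (hp : p ∈ AL1_dom h) (y : P) : dot p y - h y ≤ conj h p :=
  le_ciSup (f := fun y => dot p y - h y) hp y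

theorem AL1_comb (p q y : P) (a b c : ℝ) (hab : a + b = 1) :
    dot (a • p + b • q) y - c = a * (dot p y - c) + b * (dot q y - c) := by
  have h1 : c = a * c + b * c := by rw [← add_mul, hab, one_mul]
  conv_lhs => rw [h1]
  simp only [dot, Prod.fst_add, Prod.snd_add, Prod.smul_fst, Prod.smul_snd, smul_eq_mul]
  ring

theorem AL1_convexOn (h : P → ℝ) : ConvexOn ℝ (AL1_dom h) (conj h) := by
  have key : ∀ p ∈ AL1_dom h, ∀ q ∈ AL1_dom h, ∀ a b : ℝ, 0 ≤ a → 0 ≤ b → a + b = 1 →
      ∀ y, dot (a • p + b • q) y - h y ≤ a * conj h p + b * conj h q := by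
    intro p hp q hq a b ha hb hab y
    rw [AL1_comb p q y a b (h y) hab]
    have h1 := mul_le_mul_of_nonneg_left (AL1_le hp y) ha
    have h2 := mul_le_mul_of_nonneg_left (AL1_le hq y) hb
    linarith
  refine ⟨?_, ?_⟩
  · intro p hp q hq a b ha hb hab
    refine ⟨a * conj h p + b * conj h q, ?_⟩
    rintro _ ⟨y, rfl⟩
    exact key p hp q hq a b ha hb hab y
  · intro p hp q hq a b ha hb hab
    exact ciSup_le (key p hp q hq a b ha hb hab)

theorem AL1_differentiable (h : P → ℝ) :
    ∀ᵐ p : P, p ∈ interior (AL1_dom h) → DifferentiableAt ℝ (conj h) p := by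
  have hnull : volume {p : P | p ∈ interior (AL1_dom h) ∧ ¬ DifferentiableAt ℝ (conj h) p} = 0 := by
    apply measure_null_of_locally_null
    intro x hx
    obtain ⟨K, t, ht, hLip⟩ := (AL1_convexOn h).locallyLipschitzOn_interior hx.1
    rw [isOpen_interior.nhdsWithin_eq hx.1] at ht
    obtain ⟨r, hr, hrt⟩ := Metric.mem_nhds_iff.1 ht
    refine ⟨{p : P | p ∈ interior (AL1_dom h) ∧ ¬ DifferentiableAt ℝ (conj h) p} ∩
      Metric.ball x r, inter_mem_nhdsWithin _ (Metric.ball_mem_nhds x hr), ?_⟩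
    have h1 := (hLip.mono hrt).ae_differentiableWithinAt_of_mem (μ := volume)
    refine measure_mono_null ?_ h1
    intro p hp
    simp only [mem_compl_iff, mem_ofPred_eq, Classical.not_imp]
    refine ⟨hp.2, fun hd => hp.1.2 ?_⟩
    exact hd.differentiableAt (Metric.isOpen_ball.mem_nhds hp.2)
  rw [ae_iff]
  refine measure_mono_null ?_ hnull
  intro p hp
  simpa using hp

theorem AL1_argmin_dom {h : P → ℝ} {p y : P} (hy : IsArgmin h p y) :
    p ∈ AL1_dom h ∧ conj h p = dot p y - h y := by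
  have h1 : ∀ z, dot p z - h z ≤ dot p y - h y := by
    intro z
    have := hy z
    linarith
  have h2 : p ∈ AL1_dom h := by
    refine ⟨dot p y - h y, ?_⟩
    rintro _ ⟨z, rfl⟩
    exact h1 z
  exact ⟨h2, le_antisymm (ciSup_le h1) (AL1_le h2 y)⟩

theorem AL1_fderiv {h : P → ℝ} {p y : P} (hy : IsArgmin h p y)
    (hp : p ∈ interior (AL1_dom h)) (hd : DifferentiableAt ℝ (conj h) p) (v : P) :
    fderiv ℝ (conj h) p v = dot v y := by
  obtain ⟨h1, h2⟩ := AL1_argmin_dom hy
  set L : P →L[ℝ] ℝ := y.1 • ContinuousLinearMap.fst ℝ ℝ ℝ + y.2 • ContinuousLinearMap.snd ℝ ℝ ℝ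
    with hL
  have hLv : ∀ q : P, L q = dot q y := by
    intro q
    simp [hL, dot]
    ring
  have hmin : IsLocalMin (fun q => conj h q - L q) p := by
    filter_upwards [isOpen_interior.mem_nhds hp] with q hq
    have h3 := AL1_le (interior_subset hq) y
    simp only [hLv]
    rw [h2]
    linarith
  have h4 := hmin.hasFDerivAt_eq_zero (hd.hasFDerivAt.sub L.hasFDerivAt)
  have h5 : fderiv ℝ (conj h) p = L := sub_eq_zero.1 h4
  rw [h5, hLv]

theorem ae_argmin_unique {h : P → ℝ} (hh : LC h) :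
    ∀ᵐ p : P, ∀ y y', IsArgmin h p y → IsArgmin h p y' → y = y' := by
  have _ := hh
  have h1 : ∀ᵐ p : P, p ∉ frontier (AL1_dom h) := by
    have := (AL1_convexOn h).1.addHaar_frontier (volume : Measure P)
    exact measure_eq_zero_iff_ae_notMem.1 this
  filter_upwards [h1, AL1_differentiable h] with p hp hd y y' hy hy'
  have h2 := (AL1_argmin_dom hy).1
  have h3 : p ∈ interior (AL1_dom h) := by
    by_contra h4
    exact hp ⟨subset_closure h2, h4⟩
  have h4 : ∀ v, dot v y = dot v y' := fun v => by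
    rw [← AL1_fderiv hy h3 (hd h3), AL1_fderiv hy' h3 (hd h3)]
  have h5 := h4 ((1 : ℝ), (0 : ℝ))
  have h6 := h4 ((0 : ℝ), (1 : ℝ))
  simp only [dot, one_mul, zero_mul, add_zero, zero_add] at h5 h6
  exact Prod.ext h5 h6

end Pool.Agent.helper41.Sch
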