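import Pool.Agent.helper61.Sch.HS

/-!
Schneider project, module MO: mollification of Lipschitz functions on the plane, and convergence of
the weak mixed Monge-Ampere form under mollification.
-/

open scoped Pointwise ContDiff Convolution
open MeasureTheory Set Filter Topology

namespace Pool.Agent.helper41.Sch

/-- A fixed bump of radius `1 / (k + 1)`. -/
noncomputable def bump (k : ℕ) : ContDiffBump (0 : P) where
  rIn := 1 / (2 * ((k : ℝ) + 1))
  rOut := 1 / ((k : ℝ) + 1)
  rIn_pos := by positivity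
  rIn_lt_rOut := by
    have : (0 : ℝ) < (k : ℝ) + 1 := by positivity
    rw [div_lt_div_iff₀ (by positivity) this]
    nlinarith

/-- The mollifier. -/
noncomputable def rho (k : ℕ) : P → ℝ := (bump k).normed volume

/-- Mollification. -/
noncomputable def moll (k : ℕ) (f : P → ℝ) (x : P) : ℝ := ∫ t, rho k t * f (x - t)

theorem rho_test (k : ℕ) : Test (rho k) :=
  ⟨⟨(bump k).contDiff_normed, (bump k).hasCompactSupport_normed⟩, fun x => (bump k).nonneg_normed x⟩

theorem rho_integral (k : ℕ) : ∫ t, rho k t = 1 := (bump k).integral_normed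

theorem MO_rho_integrable (k : ℕ) : Integrable (rho k) := (bump k).integrable_normed

theorem rho_tsupport (k : ℕ) : tsupport (rho k) ⊆ Metric.closedBall 0 (1 / ((k : ℝ) + 1)) :=
  (bump k).tsupport_normed_eq.subset

theorem MO_rho_eq_zero (k : ℕ) {t : P} (ht : 1 / ((k : ℝ) + 1) < ‖t‖) : rho k t = 0 := by
  by_contra h
  have h1 := rho_tsupport k (subset_tsupport _ h)
  rw [mem_closedBall_zero_iff] at h1
  linarith

theorem MO_int_aux (k : ℕ) {f : P → ℝ} (hf : Continuous f) (x : P) :
    Integrable (fun t => rho k t * f (x - t)) := by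
  refine Continuous.integrable_of_hasCompactSupport ?_ ?_
  · exact (rho_test k).1.1.continuous.mul (hf.comp (continuous_const.sub continuous_id))
  · exact (rho_test k).1.2.mul_right

theorem MO_swap (k : ℕ) (f : P → ℝ) (x : P) : moll k f x = ∫ y, f y * rho k (x - y) := by
  unfold moll
  rw [← integral_sub_left_eq_self (fun t => rho k t * f (x - t)) volume x]
  refine integral_congr_ae (Eventually.of_forall fun y => ?_)
  simp only [sub_sub_cancel]
  ring

theorem MO_conv (k : ℕ) (f : P → ℝ) :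
    moll k f = (f ⋆[ContinuousLinearMap.mul ℝ ℝ, volume] rho k) := by
  funext x
  rw [MO_swap]
  simp [MeasureTheory.convolution]

theorem moll_smooth (k : ℕ) {f : P → ℝ} (hf : Lip f) : ContDiff ℝ ∞ (moll k f) := by
  obtain ⟨K, hK⟩ := hf
  rw [MO_conv]
  exact (rho_test k).1.2.contDiff_convolution_right _ hK.continuous.locallyIntegrable
    (rho_test k).1.1

theorem MO_moll_sub (k : ℕ) {f : P → ℝ} (hf : Continuous f) (x y : P) :
    moll k f x - moll k f y = ∫ t, rho k t * (f (x - t) - f (y - t)) := by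
  unfold moll
  rw [← integral_sub (MO_int_aux k hf x) (MO_int_aux k hf y)]
  refine integral_congr_ae (Eventually.of_forall fun t => ?_)
  simp only
  ring

theorem moll_lip (k : ℕ) {f : P → ℝ} {K : NNReal} (hf : LipschitzWith K f) :
    LipschitzWith K (moll k f) := by
  refine LipschitzWith.of_dist_le_mul fun x y => ?_
  rw [Real.dist_eq, MO_moll_sub k hf.continuous, ← Real.norm_eq_abs]
  refine (norm_integral_le_of_norm_le (g := fun t => rho k t * (K * dist x y))
    ((MO_rho_integrable k).mul_const _) (Eventually.of_forall fun t => ?_)).trans ?_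
  · rw [norm_mul, Real.norm_of_nonneg ((rho_test k).2 t)]
    refine mul_le_mul_of_nonneg_left ?_ ((rho_test k).2 t)
    have := hf.dist_le_mul (x - t) (y - t)
    rw [dist_sub_right] at this
    rwa [Real.dist_eq] at this
  · rw [integral_mul_const, rho_integral, one_mul]

theorem moll_close (k : ℕ) {f : P → ℝ} {K : NNReal} (hf : LipschitzWith K f) (x : P) :
    |moll k f x - f x| ≤ K / ((k : ℝ) + 1) := by
  have h1 : moll k f x - f x = ∫ t, rho k t * (f (x - t) - f x) := by
    have h2 : f x = ∫ t, rho k t * f x := by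
      rw [integral_mul_const, rho_integral, one_mul]
    conv_lhs => rw [h2]
    unfold moll
    rw [← integral_sub (MO_int_aux k hf.continuous x) ((MO_rho_integrable k).mul_const _)]
    refine integral_congr_ae (Eventually.of_forall fun t => ?_)
    simp only
    ring
  rw [h1, ← Real.norm_eq_abs]
  refine (norm_integral_le_of_norm_le (g := fun t => rho k t * (K / ((k : ℝ) + 1)))
    ((MO_rho_integrable k).mul_const _) (Eventually.of_forall fun t => ?_)).trans ?_
  · rw [norm_mul, Real.norm_of_nonneg ((rho_test k).2 t)]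
    by_cases ht : 1 / ((k : ℝ) + 1) < ‖t‖
    · rw [MO_rho_eq_zero k ht]
      simp
    · refine mul_le_mul_of_nonneg_left ?_ ((rho_test k).2 t)
      have h3 := hf.dist_le_mul (x - t) x
      rw [Real.dist_eq, dist_eq_norm, sub_sub_cancel_left, norm_neg] at h3
      rw [Real.norm_eq_abs]
      refine h3.trans ?_
      rw [div_eq_mul_one_div]
      exact mul_le_mul_of_nonneg_left (not_lt.1 ht) K.2
  · rw [integral_mul_const, rho_integral, one_mul]

theorem moll_convexOn (k : ℕ) {f : P → ℝ} (hf : Lip f) {Q R : Set P} (hQ : ConvexOn ℝ Q f)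
    (hR : Convex ℝ R) (hRQ : ∀ x ∈ R, Metric.closedBall x (1 / ((k : ℝ) + 1)) ⊆ Q) :
    ConvexOn ℝ R (moll k f) := by
  obtain ⟨K, hK⟩ := hf
  refine ⟨hR, ?_⟩
  intro x hx y hy a b ha hb hab
  have h1 : a • moll k f x + b • moll k f y
      = ∫ t, (a * (rho k t * f (x - t)) + b * (rho k t * f (y - t))) := by
    rw [integral_add ((MO_int_aux k hK.continuous x).const_mul a)
      ((MO_int_aux k hK.continuous y).const_mul b), integral_const_mul, integral_const_mul]
    rfl
  rw [h1]
  refine integral_mono (MO_int_aux k hK.continuous _)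
    (((MO_int_aux k hK.continuous x).const_mul a).add
      ((MO_int_aux k hK.continuous y).const_mul b)) ?_
  intro t
  simp only
  by_cases ht : 1 / ((k : ℝ) + 1) < ‖t‖
  · rw [MO_rho_eq_zero k ht]
    simp
  · have hxt : x - t ∈ Q := by
      apply hRQ x hx
      rw [mem_closedBall_iff_norm, sub_sub_cancel_left, norm_neg]
      exact not_lt.1 ht
    have hyt : y - t ∈ Q := by
      apply hRQ y hy
      rw [mem_closedBall_iff_norm, sub_sub_cancel_left, norm_neg]
      exact not_lt.1 ht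
    have h2 := hQ.2 hxt hyt ha hb hab
    have h3 : a • (x - t) + b • (y - t) = a • x + b • y - t := by
      have : t = a • t + b • t := by rw [← add_smul, hab, one_smul]
      conv_rhs => rw [this]
      simp only [smul_sub]
      abel
    rw [h3] at h2
    have h4 := mul_le_mul_of_nonneg_left h2 ((rho_test k).2 t)
    simp only [smul_eq_mul] at h4
    linarith

/-- The derivative of a convolution with a test function falls on the test function. -/
theorem MO_lineDeriv_conv {ψ f : P → ℝ} (hψ : Cc ψ) (hf : Continuous f) (x v : P) :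
    lineDeriv ℝ (fun x => ∫ y, f y * ψ (x - y)) x v = ∫ y, f y * lineDeriv ℝ ψ (x - y) v := by
  have h1 : (fun x => ∫ y, f y * ψ (x - y)) = (f ⋆[ContinuousLinearMap.mul ℝ ℝ, volume] ψ) := by
    funext x
    simp [MeasureTheory.convolution]
  have h2 := hψ.2.hasFDerivAt_convolution_right (ContinuousLinearMap.mul ℝ ℝ) (μ := volume)
    hf.locallyIntegrable (hψ.1.of_le (by exact_mod_cast le_top)) x
  rw [h1, h2.differentiableAt.lineDeriv_eq_fderiv, h2.fderiv]
  rw [convolution_precompR_apply _ hf.locallyIntegrable (hψ.2.fderiv ℝ)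
    ((hψ.1.fderiv_right (m := ∞) (by simp)).continuous)]
  simp only [MeasureTheory.convolution, ContinuousLinearMap.mul_apply']
  refine integral_congr_ae (Eventually.of_forall fun y => ?_)
  simp only
  rw [HS_line hψ.1]

theorem MO_Cc_lineDeriv {ψ : P → ℝ} (hψ : Cc ψ) (v : P) : Cc (fun x => lineDeriv ℝ ψ x v) := by
  refine ⟨HS_smooth hψ.1 v, ?_⟩
  have h : (fun x => lineDeriv ℝ ψ x v) = fun x => fderiv ℝ ψ x v := by
    funext x
    exact HS_line hψ.1 x v
  rw [h]
  exact hψ.2.fderiv_apply ℝ v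

theorem MO_Cc_d1 {ψ : P → ℝ} (hψ : Cc ψ) : Cc (d1 ψ) := MO_Cc_lineDeriv hψ _

theorem MO_Cc_d2 {ψ : P → ℝ} (hψ : Cc ψ) : Cc (d2 ψ) := MO_Cc_lineDeriv hψ _

theorem MO_second_conv {ψ f : P → ℝ} (hψ : Cc ψ) (hf : Continuous f) (x v w : P) :
    lineDeriv ℝ (fun x => lineDeriv ℝ (fun x => ∫ y, f y * ψ (x - y)) x v) x w
      = ∫ y, f y * lineDeriv ℝ (fun z => lineDeriv ℝ ψ z v) (x - y) w := by
  have h1 : (fun x => lineDeriv ℝ (fun x => ∫ y, f y * ψ (x - y)) x v)
      = fun x => ∫ y, f y * (fun z => lineDeriv ℝ ψ z v) (x - y) := by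
    funext x
    exact MO_lineDeriv_conv hψ hf x v
  rw [h1]
  exact MO_lineDeriv_conv (MO_Cc_lineDeriv hψ v) hf x w

theorem MO_reflect {ψ : P → ℝ} (hψ : ContDiff ℝ ∞ ψ) (x y v : P) :
    lineDeriv ℝ (fun z => ψ (x - z)) y v = - lineDeriv ℝ ψ (x - y) v := by
  have h1 : HasFDerivAt ψ (fderiv ℝ ψ (x - y)) (x - y) :=
    (hψ.differentiable (by simp) _).hasFDerivAt
  have h2 : HasFDerivAt (fun z : P => x - z) (-(ContinuousLinearMap.id ℝ P)) y :=
    (hasFDerivAt_id y).const_sub x
  have h3 : HasFDerivAt (fun z => ψ (x - z)) ((fderiv ℝ ψ (x - y)).comp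
      (-(ContinuousLinearMap.id ℝ P))) y := h1.comp y h2
  rw [h3.differentiableAt.lineDeriv_eq_fderiv, h3.fderiv, HS_line hψ]
  simp

theorem MO_reflect2 {ψ : P → ℝ} (hψ : ContDiff ℝ ∞ ψ) (x y v w : P) :
    lineDeriv ℝ (fun z => lineDeriv ℝ (fun z => ψ (x - z)) z v) y w
      = lineDeriv ℝ (fun z => lineDeriv ℝ ψ z v) (x - y) w := by
  have h1 : (fun z => lineDeriv ℝ (fun z => ψ (x - z)) z v)
      = fun z => (fun u => - lineDeriv ℝ ψ u v) (x - z) := by
    funext z
    exact MO_reflect hψ x z v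
  rw [h1, MO_reflect (HS_smooth hψ v).neg]
  have h2 : lineDeriv ℝ (fun u => - lineDeriv ℝ ψ u v) (x - y) w
      = - lineDeriv ℝ (fun u => lineDeriv ℝ ψ u v) (x - y) w := by
    rw [HS_line (HS_smooth hψ v).neg, HS_line (HS_smooth hψ v), fderiv_fun_neg]
    simp
  rw [h2, neg_neg]

theorem moll_second (k : ℕ) {f : P → ℝ} (hf : Lip f) (x : P) :
    d1 (d1 (moll k f)) x = (∫ y, f y * d1 (d1 (fun z => rho k (x - z))) y) ∧
    d2 (d2 (moll k f)) x = (∫ y, f y * d2 (d2 (fun z => rho k (x - z))) y) := by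
  obtain ⟨K, hK⟩ := hf
  have h0 : moll k f = fun x => ∫ y, f y * rho k (x - y) := by
    funext x
    exact MO_swap k f x
  constructor
  · rw [h0]
    refine (MO_second_conv (rho_test k).1 hK.continuous x ((1 : ℝ), (0 : ℝ))
      ((1 : ℝ), (0 : ℝ))).trans ?_
    refine integral_congr_ae (Eventually.of_forall fun y => ?_)
    simp only
    congr 1
    exact (MO_reflect2 (rho_test k).1.1 x y _ _).symm
  · rw [h0]
    refine (MO_second_conv (rho_test k).1 hK.continuous x ((0 : ℝ), (1 : ℝ))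
      ((0 : ℝ), (1 : ℝ))).trans ?_
    refine integral_congr_ae (Eventually.of_forall fun y => ?_)
    simp only
    congr 1
    exact (MO_reflect2 (rho_test k).1.1 x y _ _).symm

/-- The derivative of a mollification is the mollification of the a.e. derivative. -/
theorem MO_lineDeriv_moll (k : ℕ) {f : P → ℝ} {K : NNReal} (hf : LipschitzWith K f) (x v : P) :
    lineDeriv ℝ (moll k f) x v = ∫ t, rho k t * lineDeriv ℝ f (x - t) v := by
  have hF : LipschitzWith K (fun t => f (x - t)) := by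
    refine LipschitzWith.of_dist_le_mul fun s t => ?_
    have := hf.dist_le_mul (x - s) (x - t)
    rwa [dist_sub_left] at this
  have h1 := hF.integral_inv_smul_sub_mul_tendsto_integral_lineDeriv_mul (MO_rho_integrable k) (-v)
  have h2 : ∀ t, lineDeriv ℝ (fun t => f (x - t)) t (-v) = lineDeriv ℝ f (x - t) v := by
    intro t
    have : (fun s : ℝ => f (x - (t + s • (-v)))) = fun s : ℝ => f (x - t + s • v) := by
      funext s
      congr 1
      rw [smul_neg]
      abel
    unfold lineDeriv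
    rw [this]
  simp only [h2] at h1
  have hd : DifferentiableAt ℝ (moll k f) x :=
    (moll_smooth k ⟨K, hf⟩).differentiable (by simp) x
  have h3 := (hd.lineDifferentiableAt (v := v)).hasLineDerivAt.tendsto_slope_zero_right
  have h4 : (fun s : ℝ => s⁻¹ • (moll k f (x + s • v) - moll k f x))
      = fun s : ℝ => ∫ t, (s⁻¹ • (f (x - (t + s • (-v))) - f (x - t))) * rho k t := by
    funext s
    rw [MO_moll_sub k hf.continuous, ← integral_smul]
    refine integral_congr_ae (Eventually.of_forall fun t => ?_)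
    simp only [smul_eq_mul]
    have : x + s • v - t = x - (t + s • (-v)) := by
      rw [smul_neg]
      abel
    rw [this]
    ring
  rw [h4] at h3
  rw [tendsto_nhds_unique h3 h1]
  refine integral_congr_ae (Eventually.of_forall fun t => ?_)
  simp only
  ring

theorem MO_tendsto {f : P → ℝ} {K : NNReal} (hf : LipschitzWith K f) (v : P) :
    ∀ᵐ x : P, Tendsto (fun k => lineDeriv ℝ (moll k f) x v) atTop (𝓝 (lineDeriv ℝ f x v)) := by
  have h1 : Tendsto (fun k : ℕ => (bump k).rOut) atTop (𝓝 0) := by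
    have : (fun k : ℕ => (bump k).rOut) = fun k : ℕ => 1 / ((k : ℝ) + 1) := rfl
    rw [this]
    exact tendsto_one_div_add_atTop_nhds_zero_nat
  have h2 : ∀ᶠ k : ℕ in atTop, (bump k).rOut ≤ 2 * (bump k).rIn := by
    refine Eventually.of_forall fun k => ?_
    have h3 : (bump k).rOut = 1 / ((k : ℝ) + 1) := rfl
    have h4 : (bump k).rIn = 1 / (2 * ((k : ℝ) + 1)) := rfl
    rw [h3, h4]
    have : (0 : ℝ) < (k : ℝ) + 1 := by positivity
    apply le_of_eq
    field_simp
  have h3 := ContDiffBump.ae_convolution_tendsto_right_of_locallyIntegrable h1 h2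
    (hf.locallyIntegrable_lineDeriv (μ := volume) v)
  filter_upwards [h3] with x hx
  refine hx.congr fun k => ?_
  rw [MO_lineDeriv_moll k hf]
  rfl

/-- The integrand of `B`. -/
theorem MO_integrand_bound {K L a b c d p q r : ℝ} (ha : |a| ≤ K) (hb : |b| ≤ K) (hc : |c| ≤ L)
    (hd : |d| ≤ L) (hK : 0 ≤ K) :
    |(a * d + b * c) * p - a * c * q - b * d * r| ≤ K * L * (2 * |p| + |q| + |r|) := by
  have hL : 0 ≤ L := (abs_nonneg _).trans hc
  have h1 : |a * d| ≤ K * L := by
    rw [abs_mul]; exact mul_le_mul ha hd (abs_nonneg _) hK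
  have h2 : |b * c| ≤ K * L := by
    rw [abs_mul]; exact mul_le_mul hb hc (abs_nonneg _) hK
  have h3 : |a * c| ≤ K * L := by
    rw [abs_mul]; exact mul_le_mul ha hc (abs_nonneg _) hK
  have h4 : |b * d| ≤ K * L := by
    rw [abs_mul]; exact mul_le_mul hb hd (abs_nonneg _) hK
  have h5 : |(a * d + b * c) * p| ≤ (2 * (K * L)) * |p| := by
    rw [abs_mul]
    refine mul_le_mul_of_nonneg_right ?_ (abs_nonneg _)
    exact (abs_add_le _ _).trans (by linarith)
  have h6 : |a * c * q| ≤ K * L * |q| := by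
    rw [abs_mul]
    exact mul_le_mul_of_nonneg_right h3 (abs_nonneg _)
  have h7 : |b * d * r| ≤ K * L * |r| := by
    rw [abs_mul]
    exact mul_le_mul_of_nonneg_right h4 (abs_nonneg _)
  have h8 := abs_sub ((a * d + b * c) * p - a * c * q) (b * d * r)
  have h9 := abs_sub ((a * d + b * c) * p) (a * c * q)
  linarith

theorem MO_d1_bound {f : P → ℝ} {K : NNReal} (hf : LipschitzWith K f) (x : P) : |d1 f x| ≤ K := by
  have h := norm_lineDeriv_le_of_lipschitz ℝ hf (x₀ := x) (v := ((1 : ℝ), (0 : ℝ)))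
  have h1 : ‖((1 : ℝ), (0 : ℝ))‖ = 1 := by simp [Prod.norm_def]
  rw [h1, mul_one] at h
  exact h

theorem MO_d2_bound {f : P → ℝ} {K : NNReal} (hf : LipschitzWith K f) (x : P) : |d2 f x| ≤ K := by
  have h := norm_lineDeriv_le_of_lipschitz ℝ hf (x₀ := x) (v := ((0 : ℝ), (1 : ℝ)))
  have h1 : ‖((0 : ℝ), (1 : ℝ))‖ = 1 := by simp [Prod.norm_def]
  rw [h1, mul_one] at h
  exact h

theorem MO_d1_meas {f : P → ℝ} {K : NNReal} (hf : LipschitzWith K f) : Measurable (d1 f) :=
  measurable_lineDeriv (𝕜 := ℝ) hf.continuous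

theorem MO_d2_meas {f : P → ℝ} {K : NNReal} (hf : LipschitzWith K f) : Measurable (d2 f) :=
  measurable_lineDeriv (𝕜 := ℝ) hf.continuous

theorem MO_B_meas {φ f g : P → ℝ} {K L : NNReal} (hφ : Cc φ) (hf : LipschitzWith K f)
    (hg : LipschitzWith L g) : Measurable (fun x => (d1 f x * d2 g x + d2 f x * d1 g x)
      * d1 (d2 φ) x - d1 f x * d1 g x * d2 (d2 φ) x - d2 f x * d2 g x * d1 (d1 φ) x) := by
  have h1 := MO_d1_meas hf
  have h2 := MO_d2_meas hf
  have h3 := MO_d1_meas hg
  have h4 := MO_d2_meas hg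
  have h5 : Measurable (d1 (d2 φ)) := (MO_Cc_d1 (MO_Cc_d2 hφ)).1.continuous.measurable
  have h6 : Measurable (d2 (d2 φ)) := (MO_Cc_d2 (MO_Cc_d2 hφ)).1.continuous.measurable
  have h7 : Measurable (d1 (d1 φ)) := (MO_Cc_d1 (MO_Cc_d1 hφ)).1.continuous.measurable
  exact ((((h1.mul h4).add (h2.mul h3)).mul h5).sub ((h1.mul h3).mul h6)).sub ((h2.mul h4).mul h7)

theorem MO_dom {φ : P → ℝ} (hφ : Cc φ) (K L : ℝ) : Integrable (fun x : P =>
    K * L * (2 * |d1 (d2 φ) x| + |d2 (d2 φ) x| + |d1 (d1 φ) x|)) := by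
  have h5 : Integrable (d1 (d2 φ)) :=
    (MO_Cc_d1 (MO_Cc_d2 hφ)).1.continuous.integrable_of_hasCompactSupport (MO_Cc_d1 (MO_Cc_d2 hφ)).2
  have h6 : Integrable (d2 (d2 φ)) :=
    (MO_Cc_d2 (MO_Cc_d2 hφ)).1.continuous.integrable_of_hasCompactSupport (MO_Cc_d2 (MO_Cc_d2 hφ)).2
  have h7 : Integrable (d1 (d1 φ)) :=
    (MO_Cc_d1 (MO_Cc_d1 hφ)).1.continuous.integrable_of_hasCompactSupport (MO_Cc_d1 (MO_Cc_d1 hφ)).2
  exact (((h5.abs.const_mul 2).add h6.abs).add h7.abs).const_mul _

/-- The integrand of `B` is integrable. -/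
theorem MO_B_integrable {φ f g : P → ℝ} {K L : NNReal} (hφ : Cc φ) (hf : LipschitzWith K f)
    (hg : LipschitzWith L g) : Integrable (fun x => (d1 f x * d2 g x + d2 f x * d1 g x)
      * d1 (d2 φ) x - d1 f x * d1 g x * d2 (d2 φ) x - d2 f x * d2 g x * d1 (d1 φ) x) := by
  refine (MO_dom hφ K L).mono' (MO_B_meas hφ hf hg).aestronglyMeasurable
    (Eventually.of_forall fun x => ?_)
  exact MO_integrand_bound (MO_d1_bound hf x) (MO_d2_bound hf x) (MO_d1_bound hg x)
    (MO_d2_bound hg x) K.2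

/-- Convergence of the form under a.e. convergence of the first derivatives. -/
theorem MO_tendsto_B {φ f g : P → ℝ} {K L : NNReal} (hφ : Cc φ) {F G : ℕ → P → ℝ}
    (hF : ∀ k, LipschitzWith K (F k)) (hG : ∀ k, LipschitzWith L (G k))
    (h1 : ∀ᵐ x : P, Tendsto (fun k => d1 (F k) x) atTop (𝓝 (d1 f x)))
    (h2 : ∀ᵐ x : P, Tendsto (fun k => d2 (F k) x) atTop (𝓝 (d2 f x)))
    (h3 : ∀ᵐ x : P, Tendsto (fun k => d1 (G k) x) atTop (𝓝 (d1 g x)))
    (h4 : ∀ᵐ x : P, Tendsto (fun k => d2 (G k) x) atTop (𝓝 (d2 g x))) :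
    Tendsto (fun k => B φ (F k) (G k)) atTop (𝓝 (B φ f g)) := by
  unfold B
  refine Tendsto.const_mul _ ?_
  refine tendsto_integral_of_dominated_convergence
    (fun x : P => K * L * (2 * |d1 (d2 φ) x| + |d2 (d2 φ) x| + |d1 (d1 φ) x|))
    (fun k => (MO_B_meas hφ (hF k) (hG k)).aestronglyMeasurable) (MO_dom hφ K L)
    (fun k => Eventually.of_forall fun x => ?_) ?_
  · exact MO_integrand_bound (MO_d1_bound (hF k) x) (MO_d2_bound (hF k) x) (MO_d1_bound (hG k) x)
      (MO_d2_bound (hG k) x) K.2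
  · filter_upwards [h1, h2, h3, h4] with x a1 a2 a3 a4
    exact ((((a1.mul a4).add (a2.mul a3)).mul_const _).sub ((a1.mul a3).mul_const _)).sub
      ((a2.mul a4).mul_const _)

theorem tendsto_B_moll {φ f g : P → ℝ} (hφ : Cc φ) (hf : Lip f) (hg : Lip g) :
    Tendsto (fun k => B φ (moll k f) (moll k g)) atTop (𝓝 (B φ f g)) ∧
    Tendsto (fun k => B φ f (moll k g)) atTop (𝓝 (B φ f g)) := by
  obtain ⟨K, hK⟩ := hf
  obtain ⟨L, hL⟩ := hg
  constructor
  · exact MO_tendsto_B hφ (fun k => moll_lip k hK) (fun k => moll_lip k hL) (MO_tendsto hK _)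
      (MO_tendsto hK _) (MO_tendsto hL _) (MO_tendsto hL _)
  · exact MO_tendsto_B hφ (F := fun _ => f) (fun k => hK) (fun k => moll_lip k hL)
      (Eventually.of_forall fun x => tendsto_const_nhds)
      (Eventually.of_forall fun x => tendsto_const_nhds) (MO_tendsto hL _) (MO_tendsto hL _)

end Pool.Agent.helper41.Sch
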