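import Pool.Agent.helper61.Sch.PO1of
import Pool.Agent.helper95.Sch.SM

/-!
Schneider project, module PO1: positivity of the weak mixed Monge-Ampere form of two functions that
are convex near the support of the test function.
-/

open scoped Pointwise ContDiff
open MeasureTheory Set Filter Topology

namespace Pool.Agent.helper41.Sch

theorem B_nonneg {φ f g : P → ℝ} (hφ : Test φ) (hf : Lip f) (hg : Lip g) (Q : Set P)
    (hQ : IsOpen Q) (hQc : Convex ℝ Q) (hφQ : tsupport φ ⊆ Q) (hfQ : ConvexOn ℝ Q f)
    (hgQ : ConvexOn ℝ Q g) : 0 ≤ B φ f g := by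
  have _ := hQc
  exact PO1_of (fun h1 h2 h3 => B_smooth h1 h2 h3) hφ hf hg Q hQ hφQ hfQ hgQ

end Pool.Agent.helper41.Sch
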