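import Pool.Agent.helper41.Sch.Defs

/-!
Schneider project, module HS: Hessians of smooth functions that are convex on an open set.
-/

open scoped Pointwise ContDiff
open MeasureTheory Set Filter Topology

namespace Pool.Agent.helper41.Sch

theorem HS_line {f : P → ℝ} (hf : ContDiff ℝ ∞ f) (x v : P) :
    lineDeriv ℝ f x v = fderiv ℝ f x v :=
  (hf.differentiable (by simp) x).lineDeriv_eq_fderiv

theorem HS_smooth {f : P → ℝ} (hf : ContDiff ℝ ∞ f) (v : P) :
    ContDiff ℝ ∞ (fun x => lineDeriv ℝ f x v) := by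
  have h : (fun x => lineDeriv ℝ f x v) = fun x => fderiv ℝ f x v := by
    funext x
    exact HS_line hf x v
  rw [h]
  exact (hf.fderiv_right (m := ∞) (by simp)).clm_apply contDiff_const

theorem HS_smooth_d1 {f : P → ℝ} (hf : ContDiff ℝ ∞ f) : ContDiff ℝ ∞ (d1 f) := HS_smooth hf _

theorem HS_smooth_d2 {f : P → ℝ} (hf : ContDiff ℝ ∞ f) : ContDiff ℝ ∞ (d2 f) := HS_smooth hf _

theorem HS_dd {f : P → ℝ} (hf : ContDiff ℝ ∞ f) (x v w : P) :
    lineDeriv ℝ (fun y => lineDeriv ℝ f y v) x w = fderiv ℝ (fderiv ℝ f) x w v := by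
  have h : (fun x => lineDeriv ℝ f x v) = fun x => fderiv ℝ f x v := by
    funext x
    exact HS_line hf x v
  rw [HS_line (HS_smooth hf v), h]
  have h1 : DifferentiableAt ℝ (fderiv ℝ f) x :=
    (hf.fderiv_right (m := ∞) (by simp)).differentiable (by simp) x
  rw [fderiv_clm_apply h1 (differentiableAt_const v)]
  simp

theorem HS_symm {f : P → ℝ} (hf : ContDiff ℝ ∞ f) (x v w : P) :
    fderiv ℝ (fderiv ℝ f) x v w = fderiv ℝ (fderiv ℝ f) x w v := by
  have h : IsSymmSndFDerivAt ℝ f x := by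
    apply (hf.contDiffAt).isSymmSndFDerivAt
    rw [minSmoothness_of_isRCLikeNormedField]
    exact WithTop.coe_le_coe.2 le_top
  exact h.eq v w

theorem HS_nonneg {f : P → ℝ} (hf : ContDiff ℝ ∞ f) {Q : Set P} (hQ : IsOpen Q)
    (hfQ : ConvexOn ℝ Q f) {x : P} (hx : x ∈ Q) (v : P) :
    0 ≤ fderiv ℝ (fderiv ℝ f) x v v := by
  -- a small interval
  have hcont : Continuous (fun t : ℝ => x + t • v) := by fun_prop
  have hnb : (fun t : ℝ => x + t • v) ⁻¹' Q ∈ 𝓝 (0 : ℝ) :=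
    (hQ.preimage hcont).mem_nhds (by simpa using hx)
  obtain ⟨δ, hδ, hsub⟩ := Metric.mem_nhds_iff.1 hnb
  rw [Real.ball_eq_Ioo] at hsub
  simp only [zero_sub, zero_add] at hsub
  have hgd : ∀ t : ℝ, HasDerivAt (fun t : ℝ => f (x + t • v)) (fderiv ℝ f (x + t • v) v) t := by
    intro t
    have h1 : HasFDerivAt f (fderiv ℝ f (x + t • v)) (x + t • v) :=
      (hf.differentiable (by simp) _).hasFDerivAt
    have h2 : HasDerivAt (fun t : ℝ => x + t • v) v t := by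
      simpa using ((hasDerivAt_id t).smul_const v).const_add x
    exact h1.comp_hasDerivAt t h2
  have hconv : ConvexOn ℝ (Ioo (-δ) δ) (fun t : ℝ => f (x + t • v)) := by
    refine ⟨convex_Ioo _ _, ?_⟩
    intro s hs t ht a b ha hb hab
    have h1 := hfQ.2 (hsub hs) (hsub ht) ha hb hab
    have h2 : a • (x + s • v) + b • (x + t • v) = x + (a • s + b • t) • v := by
      have h3 : x = a • x + b • x := by rw [← add_smul, hab, one_smul]
      conv_rhs => rw [h3]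
      simp only [smul_add, smul_smul, add_smul, smul_eq_mul]
      abel
    rw [h2] at h1
    exact h1
  have hmono := hconv.monotoneOn_deriv (fun t _ => (hgd t).differentiableAt)
  have hderiv : deriv (fun t : ℝ => f (x + t • v)) = fun t => fderiv ℝ f (x + t • v) v := by
    funext t
    exact (hgd t).deriv
  rw [hderiv] at hmono
  have hd2 : HasDerivAt (fun t : ℝ => fderiv ℝ f (x + t • v) v)
      (fderiv ℝ (fderiv ℝ f) x v v) 0 := by
    have h1 : HasFDerivAt (fderiv ℝ f) (fderiv ℝ (fderiv ℝ f) (x + (0 : ℝ) • v))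
        (x + (0 : ℝ) • v) :=
      ((hf.fderiv_right (m := ∞) (by simp)).differentiable (by simp) _).hasFDerivAt
    have h2 : HasDerivAt (fun t : ℝ => x + t • v) v 0 := by
      simpa using ((hasDerivAt_id (0 : ℝ)).smul_const v).const_add x
    have h3 := h1.comp_hasDerivAt (0 : ℝ) h2
    have h4 := h3.clm_apply (hasDerivAt_const (0 : ℝ) v)
    simpa using h4
  have h5 : derivWithin (fun t : ℝ => fderiv ℝ f (x + t • v) v) (Ioo (-δ) δ) 0
      = fderiv ℝ (fderiv ℝ f) x v v :=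
    hd2.hasDerivWithinAt.derivWithin
      ((isOpen_Ioo.uniqueDiffOn) 0 ⟨by linarith, hδ⟩)
  rw [← h5]
  exact hmono.derivWithin_nonneg

theorem hess_psd {f : P → ℝ} (hf : ContDiff ℝ ∞ f) {Q : Set P} (hQ : IsOpen Q)
    (hfQ : ConvexOn ℝ Q f) {x : P} (hx : x ∈ Q) :
    0 ≤ d1 (d1 f) x ∧ 0 ≤ d2 (d2 f) x ∧ (d1 (d2 f) x) ^ 2 ≤ d1 (d1 f) x * d2 (d2 f) x := by
  have h11 : d1 (d1 f) x = fderiv ℝ (fderiv ℝ f) x ((1 : ℝ), (0 : ℝ)) ((1 : ℝ), (0 : ℝ)) :=
    HS_dd hf x _ _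
  have h12 : d1 (d2 f) x = fderiv ℝ (fderiv ℝ f) x ((1 : ℝ), (0 : ℝ)) ((0 : ℝ), (1 : ℝ)) :=
    HS_dd hf x _ _
  have h22 : d2 (d2 f) x = fderiv ℝ (fderiv ℝ f) x ((0 : ℝ), (1 : ℝ)) ((0 : ℝ), (1 : ℝ)) :=
    HS_dd hf x _ _
  have hs := HS_symm hf x ((1 : ℝ), (0 : ℝ)) ((0 : ℝ), (1 : ℝ))
  have hq : ∀ s t : ℝ, 0 ≤ d1 (d1 f) x * (s * s) + 2 * d1 (d2 f) x * (s * t)
      + d2 (d2 f) x * (t * t) := by
    intro s t
    have h := HS_nonneg hf hQ hfQ hx (s • ((1 : ℝ), (0 : ℝ)) + t • ((0 : ℝ), (1 : ℝ)))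
    simp only [map_add, map_smul, FunLike.coe_add, FunLike.coe_smul, Pi.add_apply,
      Pi.smul_apply, smul_eq_mul] at h
    rw [← hs] at h
    rw [h11, h12, h22]
    linarith [h]
  refine ⟨?_, ?_, ?_⟩
  · simpa using hq 1 0
  · simpa using hq 0 1
  · have h1 : discrim (d1 (d1 f) x) (2 * d1 (d2 f) x) (d2 (d2 f) x) ≤ 0 := by
      apply discrim_le_zero
      intro s
      have := hq s 1
      nlinarith
    rw [discrim] at h1
    nlinarith

end Pool.Agent.helper41.Sch
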