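import Pool.Agent.helper61.Sch.MO

/-!
Schneider project, module PO1: positivity of the weak mixed Monge-Ampere form of two functions that
are convex near the support of the test function (modulo the formula for smooth functions).
-/

open scoped Pointwise ContDiff
open MeasureTheory Set Filter Topology

namespace Pool.Agent.helper41.Sch

theorem PO1_alg {a b c p q r : ℝ} (ha : 0 ≤ a) (hc : 0 ≤ c) (hb : b ^ 2 ≤ a * c) (hp : 0 ≤ p)
    (hr : 0 ≤ r) (hq : q ^ 2 ≤ p * r) : 0 ≤ a * r + c * p - 2 * (b * q) := by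
  have h1 : (b * q) ^ 2 ≤ (a * r) * (c * p) := by
    have := mul_le_mul hb hq (sq_nonneg q) (mul_nonneg ha hc)
    calc (b * q) ^ 2 = b ^ 2 * q ^ 2 := by ring
      _ ≤ a * c * (p * r) := this
      _ = (a * r) * (c * p) := by ring
  have h2 : (2 * (b * q)) ^ 2 ≤ (a * r + c * p) ^ 2 := by
    nlinarith [sq_nonneg (a * r - c * p)]
  have h3 : 0 ≤ a * r + c * p := by positivity
  have h4 := abs_le_of_sq_le_sq h2 h3
  linarith [le_abs_self (2 * (b * q))]

theorem PO1_of (hS : ∀ {φ f g : P → ℝ}, Cc φ → ContDiff ℝ ∞ f → ContDiff ℝ ∞ g →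
      B φ f g = (1 / 2) * ∫ x, φ x * (d1 (d1 f) x * d2 (d2 g) x + d2 (d2 f) x * d1 (d1 g) x
        - 2 * (d1 (d2 f) x * d1 (d2 g) x)))
    {φ f g : P → ℝ} (hφ : Test φ) (hf : Lip f) (hg : Lip g) (Q : Set P)
    (hQ : IsOpen Q) (hφQ : tsupport φ ⊆ Q) (hfQ : ConvexOn ℝ Q f)
    (hgQ : ConvexOn ℝ Q g) : 0 ≤ B φ f g := by
  obtain ⟨δ, hδ, hδQ⟩ := (hφ.1.2 : IsCompact (tsupport φ)).exists_thickening_subset_open hQ hφQ
  have hev : ∀ᶠ k : ℕ in atTop, 0 ≤ B φ (moll k f) (moll k g) := by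
    have h0 : ∀ᶠ k : ℕ in atTop, 1 / ((k : ℝ) + 1) < δ / 2 :=
      tendsto_one_div_add_atTop_nhds_zero_nat.eventually_lt_const (by linarith)
    filter_upwards [h0] with k hk
    rw [hS hφ.1 (moll_smooth k hf) (moll_smooth k hg)]
    refine mul_nonneg (by norm_num) (integral_nonneg fun x => ?_)
    by_cases hx : x ∈ tsupport φ
    · refine mul_nonneg (hφ.2 x) ?_
      have hsub : ∀ y ∈ Metric.ball x (δ / 2),
          Metric.closedBall y (1 / ((k : ℝ) + 1)) ⊆ Q := by
        intro y hy z hz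
        apply hδQ
        rw [Metric.mem_thickening_iff]
        refine ⟨x, hx, ?_⟩
        have h1 := dist_triangle z y x
        rw [Metric.mem_ball] at hy
        rw [Metric.mem_closedBall] at hz
        linarith
      have hxb : x ∈ Metric.ball x (δ / 2) := Metric.mem_ball_self (by linarith)
      have h1 := hess_psd (moll_smooth k hf) Metric.isOpen_ball
        (moll_convexOn k hf hfQ (convex_ball x (δ / 2)) hsub) hxb
      have h2 := hess_psd (moll_smooth k hg) Metric.isOpen_ball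
        (moll_convexOn k hg hgQ (convex_ball x (δ / 2)) hsub) hxb
      exact PO1_alg h1.1 h1.2.1 h1.2.2 h2.1 h2.2.1 h2.2.2
    · show 0 ≤ φ x * _
      rw [image_eq_zero_of_notMem_tsupport hx, zero_mul]
  exact ge_of_tendsto (tendsto_B_moll hφ.1 hf hg).1 hev

end Pool.Agent.helper41.Sch
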